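import Mathlib

set_option autoImplicit false

namespace Pool.Agent.H5067

noncomputable section

/-- the cubic Chebyshev map -/
def T (t : ℝ) : ℝ := 4 * t ^ 3 - 3 * t
/-- the quadratic Chebyshev map -/
def S (t : ℝ) : ℝ := 2 * t ^ 2 - 1
def r : ℝ := Real.sqrt 3 / 2
def ph (d t : ℝ) : ℝ := S t - 6 / 5 * (S t) ^ 2 + d * t * S t
def K (d t : ℝ) : ℝ := ∑' j : ℕ, (2 / 3 : ℝ) ^ j * ph ((-r) ^ j * d) (T^[j] t)
def Y (d t : ℝ) : ℝ := K d t - 8 / 5 * S t - d / 2 * t

lemma r_sq : r ^ 2 = 3 / 4 := by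
  unfold r; rw [div_pow, Real.sq_sqrt (by norm_num)]; norm_num

lemma r_pos : 0 < r := by unfold r; positivity

lemma r_lo : 866 / 1000 < r := by nlinarith [r_sq, r_pos]

lemma r_hi : r < 8661 / 10000 := by nlinarith [r_sq, r_pos]

lemma T_mem {t : ℝ} (h : |t| ≤ 1) : |T t| ≤ 1 := by
  rw [abs_le] at h ⊢
  unfold T
  constructor
  · nlinarith [mul_nonneg (by linarith : (0:ℝ) ≤ t + 1) (sq_nonneg (2 * t - 1))]
  · nlinarith [mul_nonneg (by linarith : (0:ℝ) ≤ 1 - t) (sq_nonneg (2 * t + 1))]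

lemma it_mem {t : ℝ} (h : |t| ≤ 1) (j : ℕ) : |T^[j] t| ≤ 1 := by
  induction j with
  | zero => simpa using h
  | succ j ih => rw [Function.iterate_succ_apply']; exact T_mem ih

lemma S_T (t : ℝ) : S (T t) = T (S t) := by unfold S T; ring

lemma S_mem {t : ℝ} (h : |t| ≤ 1) : |S t| ≤ 1 := by
  have := sq_le_one_iff_abs_le_one t |>.2 h
  rw [abs_le]; unfold S; constructor <;> nlinarith [sq_nonneg t]

lemma d_step {d c : ℝ} (h : |d| ≤ c) : |-r * d| ≤ c := by
  rw [abs_mul, abs_neg, abs_of_pos r_pos]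
  nlinarith [r_hi, abs_nonneg d, r_pos]

lemma d_it {d c : ℝ} (h : |d| ≤ c) (j : ℕ) : |(-r) ^ j * d| ≤ c := by
  induction j with
  | zero => simpa using h
  | succ j ih =>
    have := d_step ih
    rwa [← mul_assoc, ← pow_succ'] at this

lemma dt_le {d t c : ℝ} (hd : |d| ≤ c) (ht : |t| ≤ 1) : |d * t| ≤ c := by
  rw [abs_mul]; nlinarith [abs_nonneg d, abs_nonneg t]

lemma ph_bd {d t : ℝ} (hd : |d| ≤ 1) (ht : |t| ≤ 1) : |ph d t| ≤ 4 := by
  have h1 := S_mem ht
  have h2 := dt_le (dt_le hd ht) h1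
  have h3 := sq_le_one_iff_abs_le_one (S t) |>.2 h1
  rw [abs_le] at h1 h2 ⊢
  unfold ph
  constructor <;> nlinarith [sq_nonneg (S t)]

lemma term_bd {d t : ℝ} (hd : |d| ≤ 1) (ht : |t| ≤ 1) (j : ℕ) :
    ‖(2 / 3 : ℝ) ^ j * ph ((-r) ^ j * d) (T^[j] t)‖ ≤ 4 * (2 / 3 : ℝ) ^ j := by
  rw [Real.norm_eq_abs, abs_mul, abs_of_pos (by positivity), mul_comm]
  exact mul_le_mul_of_nonneg_right (ph_bd (d_it hd j) (it_mem ht j)) (by positivity)

lemma geo : Summable fun j : ℕ => 4 * (2 / 3 : ℝ) ^ j :=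
  (summable_geometric_of_lt_one (by norm_num) (by norm_num)).mul_left 4

lemma K_sum {d t : ℝ} (hd : |d| ≤ 1) (ht : |t| ≤ 1) :
    Summable fun j : ℕ => (2 / 3 : ℝ) ^ j * ph ((-r) ^ j * d) (T^[j] t) :=
  Summable.of_norm_bounded geo (term_bd hd ht)

lemma K_rec {d t : ℝ} (hd : |d| ≤ 1) (ht : |t| ≤ 1) :
    K d t = ph d t + 2 / 3 * K (-r * d) (T t) := by
  unfold K
  rw [(K_sum hd ht).tsum_eq_zero_add, ← tsum_mul_left]
  congr 1
  · simp
  · refine tsum_congr fun j => ?_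
    rw [Function.iterate_succ_apply, pow_succ, pow_succ]
    have : (-r) ^ j * -r * d = (-r) ^ j * (-r * d) := by ring
    rw [this]; ring

lemma K_bd {d t : ℝ} (hd : |d| ≤ 1) (ht : |t| ≤ 1) : |K d t| ≤ 12 := by
  have h := tsum_of_norm_bounded geo.hasSum (term_bd hd ht)
  rw [tsum_mul_left, tsum_geometric_of_lt_one (by norm_num) (by norm_num)] at h
  have e : (4 : ℝ) * (1 - 2 / 3)⁻¹ = 12 := by norm_num
  rw [e] at h
  exact h

lemma T_cont : Continuous T := by unfold T; fun_prop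

lemma K_cont {d : ℝ} (hd : |d| ≤ 1) : Continuous fun t : Set.Icc (-1 : ℝ) 1 => K d t := by
  unfold K
  refine continuous_tsum (fun j => ?_) geo (fun j t => term_bd hd (abs_le.2 t.2) j)
  have h : Continuous fun t : Set.Icc (-1 : ℝ) 1 => T^[j] (t : ℝ) :=
    (T_cont.iterate j).comp continuous_subtype_val
  unfold ph S
  fun_prop

lemma T_zero : T 0 = 0 := by simp [T]

lemma K_zero {d t : ℝ} (h : S t = 0) : K d t = 0 := by
  have : ∀ j, S (T^[j] t) = 0 := by
    intro j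
    induction j with
    | zero => simpa using h
    | succ j ih => rw [Function.iterate_succ_apply', S_T, ih, T_zero]
  unfold K
  simp [ph, this]

lemma K_at0 (d : ℝ) : K d 0 = -33 / 5 := by
  have : ∀ j, T^[j] 0 = 0 := fun j => Function.iterate_fixed T_zero j
  unfold K
  have e : ∀ j : ℕ, (2 / 3 : ℝ) ^ j * ph ((-r) ^ j * d) (T^[j] 0) = (-11 / 5) * (2 / 3 : ℝ) ^ j := by
    intro j; rw [this]; unfold ph S; ring
  rw [tsum_congr e, tsum_mul_left, tsum_geometric_of_lt_one (by norm_num) (by norm_num)]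
  norm_num

lemma le_zero_of_geo {a C : ℝ} (h : ∀ n : ℕ, a ≤ C * (2 / 3 : ℝ) ^ n) : a ≤ 0 := by
  have h1 : Filter.Tendsto (fun n : ℕ => C * (2 / 3 : ℝ) ^ n) Filter.atTop (nhds (C * 0)) :=
    (tendsto_pow_atTop_nhds_zero_of_lt_one (by norm_num) (by norm_num)).const_mul C
  rw [mul_zero] at h1
  exact ge_of_tendsto' h1 h

lemma ph_neg {d t : ℝ} (hd : |d| ≤ 1 / 1000) (ht : |t| ≤ 1) (hs : S t ≤ 0) :
    ph d t ≤ 999 / 1000 * S t := by
  have h := abs_le.1 (dt_le hd ht)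
  unfold ph
  nlinarith [sq_nonneg (S t)]

lemma ph_pos {d t : ℝ} (hd : |d| ≤ 1 / 1000) (ht : |t| ≤ 1) (hs : 0 ≤ S t) :
    ph d t ≤ 1001 / 1000 * S t - 6 / 5 * (S t) ^ 2 := by
  have h := abs_le.1 (dt_le hd ht)
  unfold ph
  nlinarith

lemma K_le {d t : ℝ} (hd : |d| ≤ 1 / 1000) (ht : |t| ≤ 1) : K d t ≤ 0 := by
  have key : ∀ n : ℕ, ∀ d t : ℝ, |d| ≤ 1 / 1000 → |t| ≤ 1 → K d t ≤ 12 * (2 / 3 : ℝ) ^ n := by
    intro n
    induction n with
    | zero => intro d t hd ht; simpa using (abs_le.1 (K_bd (hd.trans (by norm_num)) ht)).2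
    | succ n ih =>
      intro d t hd ht
      have hp : (0 : ℝ) < (2 / 3 : ℝ) ^ n := by positivity
      have h1 := K_rec (hd.trans (by norm_num)) ht
      have h2 := ih _ _ (d_step hd) (T_mem ht)
      rw [pow_succ]
      rcases le_total (S t) 0 with hs | hs
      · have := ph_neg hd ht hs
        linarith
      · have h3 := ph_pos hd ht hs
        rcases le_total (S t) (17 / 20) with hs2 | hs2
        · have h4 := K_rec ((d_step hd).trans (by norm_num)) (T_mem ht)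
          have h5 := ih _ _ (d_step (d_step hd)) (T_mem (T_mem ht))
          have h6 : S (T t) ≤ 0 := by
            rw [S_T]; unfold T; nlinarith [mul_nonneg hs hs]
          have h7 := ph_neg (d_step hd) (T_mem ht) h6
          rw [S_T] at h7
          have h8 : 1001 / 1000 * S t - 6 / 5 * (S t) ^ 2 + 2 / 3 * (999 / 1000 * T (S t)) ≤ 0 := by
            unfold T
            nlinarith [mul_nonneg hs hs, mul_nonneg (mul_nonneg hs hs) (sub_nonneg.2 hs2),
              mul_nonneg hs (sub_nonneg.2 hs2)]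
          linarith
        · nlinarith
  exact le_zero_of_geo fun n => key n d t hd ht

lemma abs_T (t : ℝ) : |T t| = |t| * |3 - 4 * |t| ^ 2| := by
  rw [sq_abs, ← abs_mul, ← abs_neg]; congr 1; unfold T; ring

lemma K_ge {d t : ℝ} (hd : |d| ≤ 1 / 1000) (ht : |t| ≤ 1) : 19 / 10 * |t| ≤ K d t + 33 / 5 := by
  have key : ∀ n : ℕ, ∀ d t : ℝ, |d| ≤ 1 / 1000 → |t| ≤ 1 →
      19 / 10 * |t| - (K d t + 33 / 5) ≤ 12 * (2 / 3 : ℝ) ^ n := by
    intro n
    induction n with
    | zero =>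
      intro d t hd ht
      have := (abs_le.1 (K_bd (hd.trans (by norm_num)) ht)).1
      rw [pow_zero]; linarith
    | succ n ih =>
      intro d t hd ht
      have h1 := K_rec (hd.trans (by norm_num)) ht
      have h2 := ih _ _ (d_step hd) (T_mem ht)
      rw [pow_succ]
      have h3 : |d * t * S t| ≤ 1 / 1000 * |t| := by
        rw [mul_right_comm, abs_mul]
        exact mul_le_mul_of_nonneg_right (dt_le hd (S_mem ht)) (abs_nonneg t)
      have h4 := (abs_le.1 h3).1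
      have h5 : ph d t + 11 / 5 = 2 * |t| ^ 2 + 24 / 5 * |t| ^ 2 * (1 - |t| ^ 2) + d * t * S t := by
        rw [sq_abs]; unfold ph S; ring
      have h6 := abs_T t
      have hu := abs_nonneg t
      generalize |t| = u at *
      have h7 : 1901 / 1000 ≤ 2 * u + 24 / 5 * u * (1 - u ^ 2) + 19 / 15 * |3 - 4 * u ^ 2| := by
        rcases le_total u (4 / 5) with h | h
        · have := le_abs_self (3 - 4 * u ^ 2)
          nlinarith [mul_nonneg hu (sub_nonneg.2 h), mul_nonneg (mul_nonneg hu hu) (sub_nonneg.2 h)]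
        · have := abs_nonneg (3 - 4 * u ^ 2)
          nlinarith [mul_nonneg (sub_nonneg.2 h) (sub_nonneg.2 ht),
            mul_nonneg hu (mul_nonneg (sub_nonneg.2 h) (sub_nonneg.2 ht))]
      have h8 := mul_le_mul_of_nonneg_left h7 hu
      rw [h6] at h2
      nlinarith
  have := le_zero_of_geo fun n => key n d t hd ht
  linarith

lemma Y_rec {d t : ℝ} (hd : |d| ≤ 1) (ht : |t| ≤ 1) :
    Y d t = -3 / 5 * (S t + 2 * (S t) ^ 2) + d / 2 * T t + 2 / 3 * K (-r * d) (T t) := by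
  unfold Y; rw [K_rec hd ht]; unfold ph S T; ring

lemma Y_ge {d t : ℝ} (hd : |d| ≤ 1 / 1000) (ht : |t| ≤ 1) : -5 ≤ Y d t := by
  rw [Y_rec (hd.trans (by norm_num)) ht]
  have h1 := K_ge (d_step hd) (T_mem ht)
  have h2 : -3 / 5 * (S t + 2 * (S t) ^ 2) = -3 / 5 - 6 / 5 * (t * T t) := by unfold S T; ring
  have h3 : |t * T t| ≤ |T t| := by
    rw [abs_mul]; nlinarith [abs_nonneg (T t)]
  have h4 : |d * T t| ≤ 1 / 1000 * |T t| := by
    rw [abs_mul]; exact mul_le_mul_of_nonneg_right hd (abs_nonneg _)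
  have h5 := (abs_le.1 h3).2
  have h6 := (abs_le.1 h4).1
  have h7 := abs_nonneg (T t)
  rw [h2]; linarith

lemma exists_a : ∃ a : ℝ, -343 / 1000 ≤ a ∧ a ≤ -342 / 1000 ∧ T a = r := by
  have h := intermediate_value_Icc' (a := (-343 / 1000 : ℝ)) (b := -342 / 1000) (by norm_num)
    T_cont.continuousOn
  have hr : r ∈ Set.Icc (T (-342 / 1000)) (T (-343 / 1000)) := by
    constructor
    · have : T (-342 / 1000) ≤ 866 / 1000 := by unfold T; norm_num
      linarith [r_lo]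
    · have : 8661 / 10000 ≤ T (-343 / 1000) := by unfold T; norm_num
      linarith [r_hi]
  obtain ⟨a, ha, ha2⟩ := h hr
  exact ⟨a, ha.1, ha.2, ha2⟩

/-- the inner node, in the variable `S t` -/
def a0 : ℝ := exists_a.choose
lemma a0_lo : -343 / 1000 ≤ a0 := exists_a.choose_spec.1
lemma a0_hi : a0 ≤ -342 / 1000 := exists_a.choose_spec.2.1
lemma T_a0 : T a0 = r := exists_a.choose_spec.2.2

def Ys : ℝ := -3 / 5 * (a0 + 2 * a0 ^ 2) + 2 / 3 * (r - 9 / 10)

lemma Ys_lo : 41 / 1000 ≤ Ys := by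
  unfold Ys
  nlinarith [a0_lo, a0_hi, r_lo, mul_nonneg (sub_nonneg.2 a0_lo) (sub_nonneg.2 a0_hi)]

lemma Ys_hi : Ys ≤ 1 := by
  unfold Ys
  nlinarith [a0_lo, a0_hi, r_hi, sq_nonneg a0]

lemma Y_rec2 {d t : ℝ} (hd : |d| ≤ 1) (ht : |t| ≤ 1) :
    Y d t - Ys = -3 / 5 * (S t - a0) * (1 + 2 * (S t + a0))
      - 2 / 3 * r * (d * T t) * (T (S t) - r)
      + 2 / 3 * (T (S t) - r) * (1 - 6 / 5 * (T (S t) + r))
      + 4 / 9 * K (-r * (-r * d)) (T (T t)) := by
  rw [Y_rec hd ht, K_rec (d_step hd) (T_mem ht)]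
  unfold ph Ys
  rw [S_T]
  have h := r_sq
  linear_combination (-(2 / 3) * (d * T t) - 4 / 5) * h

lemma Y_le {d t : ℝ} (hd : |d| ≤ 1 / 1000) (ht : |t| ≤ 1) : Y d t ≤ Ys := by
  have hd1 : |d| ≤ 1 := hd.trans (by norm_num)
  have hdt := abs_le.1 (dt_le hd (T_mem ht))
  have hlo := a0_lo
  have hhi := a0_hi
  have hr1 := r_lo
  have hr2 := r_hi
  by_cases hA : S t ≤ -1 / 2 ∨ -7 / 100 ≤ S t
  · rw [Y_rec hd1 ht]
    have h1 := K_le (d_step hd) (T_mem ht)
    have h2 := Ys_lo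
    rcases hA with h | h <;> nlinarith
  · push Not at hA
    obtain ⟨h1, h2⟩ := hA
    have e := Y_rec2 hd1 ht
    have hk := K_le (d_step (d_step hd)) (T_mem (T_mem ht))
    have hy : T (S t) - r = -(S t - a0) * (3 - 4 * (S t ^ 2 + S t * a0 + a0 ^ 2)) := by
      rw [← T_a0]; unfold T; ring
    rcases le_total (S t) a0 with h3 | h3
    · have hm : 0 ≤ 3 - 4 * (S t ^ 2 + S t * a0 + a0 ^ 2) := by nlinarith
      have hy0 : 0 ≤ T (S t) - r := by rw [hy]; exact mul_nonneg (by linarith) hm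
      have t1 : 0 ≤ (S t - a0) * (1 + 2 * (S t + a0)) :=
        mul_nonneg_of_nonpos_of_nonpos (by linarith) (by linarith)
      have t2 : -(r * (d * T t)) + (1 - 6 / 5 * (T (S t) + r)) ≤ 0 := by nlinarith
      have t3 := mul_nonneg hy0 (neg_nonneg.2 t2)
      nlinarith
    · have hm : 3 / 2 ≤ 3 - 4 * (S t ^ 2 + S t * a0 + a0 ^ 2) := by nlinarith
      have hy0 : 3 / 2 * (S t - a0) ≤ r - T (S t) := by
        have := mul_le_mul_of_nonneg_left hm (sub_nonneg.2 h3)
        linarith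
      have hs1 : 1 / 5 ≤ T (S t) := by
        unfold T
        have p1 : 0 ≤ (S t + 343 / 1000) * (-7 / 100 - S t) := mul_nonneg (by linarith) (by linarith)
        nlinarith [mul_nonneg p1 (by linarith : 0 ≤ -S t)]
      have hs2 : S (T (T t)) = 4 * T (S t) * (T (S t) + r) * (T (S t) - r) := by
        rw [S_T, S_T]
        generalize T (S t) = z
        unfold T
        linear_combination (4 * z) * r_sq
      have hs3 : S (T (T t)) ≤ 0 := by
        rw [hs2]
        exact mul_nonpos_of_nonneg_of_nonpos (by positivity) (by linarith)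
      have hd2 := d_step (d_step hd)
      have k1 := K_rec (hd2.trans (by norm_num)) (T_mem (T_mem ht))
      have k2 := K_le (d_step hd2) (T_mem (T_mem (T_mem ht)))
      have k3 := ph_neg hd2 (T_mem (T_mem ht)) hs3
      have k4 : K (-r * (-r * d)) (T (T t)) ≤
          999 / 1000 * (4 * T (S t) * (T (S t) + r) * (T (S t) - r)) := by
        rw [← hs2]; linarith
      have t1 : -3 / 5 * (S t - a0) * (1 + 2 * (S t + a0)) ≤ 4 / 25 * (r - T (S t)) := by
        have : 0 ≤ (S t - a0) * (1 + 2 * (S t + a0) + 2 / 5) :=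
          mul_nonneg (by linarith) (by linarith)
        nlinarith
      generalize T (S t) = z at *
      have t2 : 4 / 25 + 2 / 3 * (r * (d * T t)) - 2 / 3 * (1 - 6 / 5 * (z + r))
          - 4 / 9 * (999 / 1000) * (4 * z * (z + r)) ≤ 0 := by
        have q1 : r * (d * T t) ≤ 1 / 1000 := by nlinarith
        have q2 : z * (866 / 1000) ≤ z * r := by nlinarith
        nlinarith
      have t3 := mul_nonneg (by linarith : 0 ≤ r - z) (neg_nonneg.2 t2)
      nlinarith

lemma Y_node_lo {d t : ℝ} (hd : |d| ≤ 1) (h : t ^ 2 = 0 ∨ t ^ 2 = 3 / 4) : Y d t = -5 := by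
  have ht : |t| ≤ 1 := by
    rw [← sq_le_one_iff_abs_le_one]; rcases h with h | h <;> rw [h] <;> norm_num
  have hT : T t = 0 := by
    rcases h with h | h
    · rw [pow_eq_zero_iff (by norm_num)] at h; rw [h, T_zero]
    · unfold T; linear_combination (4 * t) * h
  rw [Y_rec hd ht, hT, K_at0]
  unfold S
  rcases h with h | h <;> rw [h] <;> norm_num

lemma Y_node_hi {d t : ℝ} (hd : |d| ≤ 1) (h : S t = a0) : Y d t = Ys := by
  have ht : |t| ≤ 1 := by
    rw [← sq_le_one_iff_abs_le_one]; unfold S at h; linarith [a0_hi]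
  have e := Y_rec2 hd ht
  have hz : S (T (T t)) = 0 := by
    rw [S_T, S_T, h, T_a0]; unfold T; linear_combination (4 * r) * r_sq
  rw [K_zero hz, h, T_a0] at e
  linarith

end

end Pool.Agent.H5067
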