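import Mathlib
import Pool.Agent.H.MP_5067f1_an.A

set_option autoImplicit false

namespace Pool.Agent.H5067

open Polynomial

noncomputable section

/-- no polynomial of degree below `n` is uniformly closer than `c` to `f` on `[-1,1]` -/
def Good (f : ℝ → ℝ) (n : ℕ) (c : ℝ) : Prop :=
  ∀ q : ℝ[X], q.natDegree < n → ∃ t, |t| ≤ 1 ∧ c ≤ |f t - q.eval t|

lemma T_rot {t u : ℝ} (h : t ^ 2 + u ^ 2 = 1) : T (-t / 2 + r * u) = T t := by
  unfold T
  linear_combination (-6 * t * u ^ 2 + 4 * r * u ^ 3) * r_sq + (-9 / 2 * t + 3 * r * u) * h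

lemma rot_mem {t u : ℝ} (h : t ^ 2 + u ^ 2 = 1) : |-t / 2 + r * u| ≤ 1 := by
  rw [← sq_le_one_iff_abs_le_one]
  have : (-t / 2 + r * u) ^ 2 + (r * t + u / 2) ^ 2 = 1 := by
    linear_combination (u ^ 2 + t ^ 2) * r_sq + h
  nlinarith [sq_nonneg (r * t + u / 2)]

lemma cube (z : ℝ) (k : ℕ) : z ^ (k + 3) = 1 / 4 * T z * z ^ k + 3 / 4 * z ^ (k + 1) := by
  unfold T; ring

lemma psum (k : ℕ) : ∃ p : ℝ[X], p.natDegree ≤ k / 3 ∧ ∀ t u : ℝ, t ^ 2 + u ^ 2 = 1 →
    t ^ k + (-t / 2 + r * u) ^ k + (-t / 2 + r * -u) ^ k = 3 * p.eval (T t) := by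
  induction k using Nat.strong_induction_on with
  | _ k ih =>
    match k with
    | 0 => exact ⟨1, by simp, fun t u _ => by simp; norm_num⟩
    | 1 => exact ⟨0, by simp, fun t u _ => by simp; ring⟩
    | 2 =>
      refine ⟨C (1 / 2), by simp, fun t u h => ?_⟩
      rw [eval_C]
      linear_combination (2 * u ^ 2) * r_sq + (3 / 2) * h
    | k + 3 =>
      obtain ⟨p, hp, hp2⟩ := ih k (by omega)
      obtain ⟨q, hq, hq2⟩ := ih (k + 1) (by omega)
      refine ⟨C (1 / 4) * (X * p) + C (3 / 4) * q, ?_, fun t u h => ?_⟩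
      · refine (natDegree_add_le _ _).trans (max_le ?_ ?_)
        · refine (natDegree_C_mul_le _ _).trans (natDegree_mul_le.trans ?_)
          rw [natDegree_X]; omega
        · refine (natDegree_C_mul_le _ _).trans ?_
          omega
      · have h' : t ^ 2 + (-u) ^ 2 = 1 := by rw [neg_sq]; exact h
        rw [cube t, cube (-t / 2 + r * u), cube (-t / 2 + r * -u), T_rot h, T_rot h']
        simp only [eval_add, eval_mul, eval_C, eval_X]
        linear_combination (1 / 4 * T t) * hp2 t u h + (3 / 4) * hq2 t u h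

lemma avg {n : ℕ} (q : ℝ[X]) (hq : q.natDegree < 3 * n) : ∃ p : ℝ[X], p.natDegree < n ∧
    ∀ t u : ℝ, t ^ 2 + u ^ 2 = 1 →
      q.eval t + q.eval (-t / 2 + r * u) + q.eval (-t / 2 + r * -u) = 3 * p.eval (T t) := by
  choose p hp hp2 using psum
  refine ⟨∑ k ∈ Finset.range (3 * n), C (q.coeff k) * p k, ?_, fun t u h => ?_⟩
  · have : (∑ k ∈ Finset.range (3 * n), C (q.coeff k) * p k).natDegree ≤ n - 1 := by
      refine natDegree_sum_le_of_forall_le _ _ fun k hk => ?_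
      refine (natDegree_C_mul_le _ _).trans ((hp k).trans ?_)
      rw [Finset.mem_range] at hk
      omega
    omega
  · rw [eval_eq_sum_range' hq, eval_eq_sum_range' hq, eval_eq_sum_range' hq, eval_finset_sum,
      ← Finset.sum_add_distrib, ← Finset.sum_add_distrib, Finset.mul_sum]
    refine Finset.sum_congr rfl fun k _ => ?_
    rw [eval_mul, eval_C]
    linear_combination (q.coeff k) * hp2 k t u h

lemma T_surj {y : ℝ} (hy : |y| ≤ 1) : ∃ t, |t| ≤ 1 ∧ T t = y := by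
  have h := intermediate_value_Icc (a := (-1 : ℝ)) (b := 1) (by norm_num) T_cont.continuousOn
  have e1 : T (-1) = -1 := by unfold T; norm_num
  have e2 : T 1 = 1 := by unfold T; norm_num
  rw [e1, e2] at h
  obtain ⟨t, ht, ht2⟩ := h (abs_le.1 hy)
  exact ⟨t, abs_le.2 ht, ht2⟩

lemma Good.lift {f : ℝ → ℝ} {n : ℕ} {c : ℝ} (h : Good f n c) :
    Good (fun t => f (T t)) (3 * n) c := by
  intro q hq
  obtain ⟨p, hp, hp2⟩ := avg q hq
  obtain ⟨y, hy, hy2⟩ := h p hp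
  obtain ⟨t, ht, rfl⟩ := T_surj hy
  have h1 : t ^ 2 + (Real.sqrt (1 - t ^ 2)) ^ 2 = 1 := by
    rw [Real.sq_sqrt (by have := (sq_le_one_iff_abs_le_one t).2 ht; linarith)]; ring
  generalize Real.sqrt (1 - t ^ 2) = u at h1
  have h2 : t ^ 2 + (-u) ^ 2 = 1 := by rw [neg_sq]; exact h1
  by_contra hc
  push Not at hc
  have a1 := abs_lt.1 (hc t ht)
  have a2 := abs_lt.1 (hc _ (rot_mem h1))
  have a3 := abs_lt.1 (hc _ (rot_mem h2))
  rw [T_rot h1] at a2
  rw [T_rot h2] at a3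
  have a4 := hp2 t u h1
  have : |f (T t) - p.eval (T t)| < c := by
    rw [abs_lt]; constructor <;> linarith [a1.1, a1.2, a2.1, a2.2, a3.1, a3.2]
  linarith

lemma Good.iter {f : ℝ → ℝ} {n : ℕ} {c : ℝ} (h : Good f n c) (j : ℕ) :
    Good (fun t => f (T^[j] t)) (n * 3 ^ j) c := by
  induction j with
  | zero => simpa using h
  | succ j ih =>
    have := ih.lift
    have e : 3 * (n * 3 ^ j) = n * 3 ^ (j + 1) := by ring
    rw [e] at this
    exact this

lemma Good.scale {f : ℝ → ℝ} {n : ℕ} {c a : ℝ} (h : Good f n c) (ha : 0 < a) :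
    Good (fun t => a * f t) n (a * c) := by
  intro q hq
  obtain ⟨t, ht, ht2⟩ := h (C a⁻¹ * q) ((natDegree_C_mul_le _ _).trans_lt hq)
  refine ⟨t, ht, ?_⟩
  have e : a * f t - q.eval t = a * (f t - (C a⁻¹ * q).eval t) := by
    rw [eval_mul, eval_C]; field_simp
  rw [e, abs_mul, abs_of_pos ha]
  exact mul_le_mul_of_nonneg_left ht2 ha.le

def w : ℝ := Real.sqrt (1 / 2)
lemma w_sq : w ^ 2 = 1 / 2 := Real.sq_sqrt (by norm_num)
lemma w_pos : 0 < w := Real.sqrt_pos.2 (by norm_num)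
lemma w_mem : |w| ≤ 1 := by rw [← sq_le_one_iff_abs_le_one, w_sq]; norm_num
lemma S_w : S w = 0 := by unfold S; rw [w_sq]; norm_num
lemma S_neg (t : ℝ) : S (-t) = S t := by unfold S; ring

lemma goodB (d : ℝ) : Good (fun t => K d t + 33 / 10) 2 (33 / 10) := by
  intro q hq
  by_contra hc
  push Not at hc
  have a1 := abs_lt.1 (hc w w_mem)
  have a2 := abs_lt.1 (hc (-w) (by rw [abs_neg]; exact w_mem))
  have a3 := abs_lt.1 (hc 0 (by norm_num))
  rw [K_zero S_w] at a1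
  rw [K_zero (by rw [S_neg, S_w])] at a2
  rw [K_at0] at a3
  simp only [eval_eq_sum_range' hq, Finset.sum_range_succ, Finset.sum_range_zero] at a1 a2 a3
  nlinarith [a1.1, a1.2, a2.1, a2.2, a3.1, a3.2]

def eA : ℝ := (Ys + 5) / 2
def cY : ℝ := (Ys - 5) / 2

lemma goodA {d : ℝ} (hd : |d| ≤ 1) : Good (fun t => Y d t - cY) 4 eA := by
  intro q hq
  by_contra hc
  push Not at hc
  have hlo := a0_lo
  have hhi := a0_hi
  have hv : (Real.sqrt ((1 + a0) / 2)) ^ 2 = (1 + a0) / 2 := Real.sq_sqrt (by linarith)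
  generalize Real.sqrt ((1 + a0) / 2) = v at hv
  have hv1 : |v| ≤ 1 := by rw [← sq_le_one_iff_abs_le_one, hv]; linarith
  have hv2 : S v = a0 := by unfold S; rw [hv]; ring
  have hr1 : |r| ≤ 1 := by rw [← sq_le_one_iff_abs_le_one, r_sq]; norm_num
  have a1 := (abs_lt.1 (hc v hv1)).2
  have a2 := (abs_lt.1 (hc (-v) (by rw [abs_neg]; exact hv1))).2
  have a3 := (abs_lt.1 (hc 0 (by norm_num))).1
  have a4 := (abs_lt.1 (hc r hr1)).1
  have a5 := (abs_lt.1 (hc (-r) (by rw [abs_neg]; exact hr1))).1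
  rw [Y_node_hi hd hv2] at a1
  rw [Y_node_hi hd (by rw [S_neg, hv2])] at a2
  rw [Y_node_lo hd (Or.inl (by norm_num))] at a3
  rw [Y_node_lo hd (Or.inr r_sq)] at a4
  rw [Y_node_lo hd (Or.inr (by rw [neg_sq, r_sq]))] at a5
  unfold eA cY at *
  simp only [eval_eq_sum_range' hq, Finset.sum_range_succ, Finset.sum_range_zero] at a1 a2 a3 a4 a5
  have b1 : 0 < q.coeff 0 + q.coeff 2 * v ^ 2 := by nlinarith
  have b2 : q.coeff 0 < 0 := by nlinarith
  have b3 : q.coeff 0 + q.coeff 2 * r ^ 2 < 0 := by nlinarith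
  rw [hv] at b1
  rw [r_sq] at b3
  nlinarith

lemma absB {d t : ℝ} (hd : |d| ≤ 1 / 1000) (ht : |t| ≤ 1) : |K d t + 33 / 10| ≤ 33 / 10 := by
  have h1 := K_le hd ht
  have h2 := K_ge hd ht
  have h3 := abs_nonneg t
  rw [abs_le]; constructor <;> linarith

lemma absA {d t : ℝ} (hd : |d| ≤ 1 / 1000) (ht : |t| ≤ 1) : |Y d t - cY| ≤ eA := by
  have h1 := Y_le hd ht
  have h2 := Y_ge hd ht
  unfold eA cY
  rw [abs_le]; constructor <;> linarith

/-- the level containing `n` -/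
def lev {m : ℕ → ℕ} (hm : StrictMono m) (n : ℕ) : ℕ :=
  Nat.find (⟨n, hm.le_apply⟩ : ∃ i, n ≤ m i)

lemma lev_le_iff {m : ℕ → ℕ} (hm : StrictMono m) (n i : ℕ) : lev hm n ≤ i ↔ n ≤ m i := by
  unfold lev
  rw [Nat.find_le_iff]
  constructor
  · rintro ⟨k, hk, h⟩; exact h.trans (hm.monotone hk)
  · intro h; exact ⟨i, le_rfl, h⟩

lemma le_m_lev {m : ℕ → ℕ} (hm : StrictMono m) (n : ℕ) : n ≤ m (lev hm n) :=
  (lev_le_iff hm n _).1 le_rfl

lemma lev_mono {m : ℕ → ℕ} (hm : StrictMono m) : Monotone (lev hm) := fun _ b h =>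
  (lev_le_iff hm _ _).2 (h.trans (le_m_lev hm b))

lemma lt_of_lt_lev {m : ℕ → ℕ} (hm : StrictMono m) {n i : ℕ} (h : i < lev hm n) : m i < n := by
  by_contra hc
  exact absurd ((lev_le_iff hm n i).2 (not_lt.1 hc)) (not_le.2 h)

lemma lev_top {m : ℕ → ℕ} (hm : StrictMono m) :
    Filter.Tendsto (lev hm) Filter.atTop Filter.atTop := by
  refine Filter.tendsto_atTop_atTop.2 fun i => ⟨m i + 1, fun n hn => ?_⟩
  by_contra hc
  have := (lev_le_iff hm n i).1 (not_le.1 hc).le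
  omega

lemma lev_succ {m : ℕ → ℕ} (hm : StrictMono m) (i : ℕ) : lev hm (m i + 1) = i + 1 := by
  apply le_antisymm
  · exact (lev_le_iff hm _ _).2 (hm (Nat.lt_succ_self i))
  · by_contra hc
    have := (lev_le_iff hm (m i + 1) i).1 (by omega)
    omega

lemma sum_deg {m : ℕ → ℕ} (hm : StrictMono m) {W : ℕ → ℝ[X]} (hW : ∀ i, (W i).natDegree ≤ m i)
    {n : ℕ} : (∑ l ∈ Finset.range (lev hm n), W l).degree < (n : WithBot ℕ) := by
  refine (degree_sum_le _ _).trans_lt ?_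
  refine (Finset.sup_lt_iff (WithBot.bot_lt_coe n)).2 ?_
  intro l hl
  rw [Finset.mem_range] at hl
  have h : ((m l : ℕ) : WithBot ℕ) < ((n : ℕ) : WithBot ℕ) := by
    exact_mod_cast lt_of_lt_lev hm hl
  exact (degree_le_of_natDegree_le (hW l)).trans_lt h

theorem levels {m : ℕ → ℕ} (hm : StrictMono m) (hm0 : 0 < m 0) (W : ℕ → ℝ[X])
    (hW : ∀ i, (W i).natDegree ≤ m i) (s c : ℕ → ℝ)
    (hs : ∀ i, (W i).coeff (m i) ≠ 0 ∧ Real.sign ((W i).coeff (m i)) = s i)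
    (x : C(Set.Icc (-1 : ℝ) 1, ℝ)) (R : ℕ → ℝ → ℝ)
    (hR : ∀ i, ∀ t : Set.Icc (-1 : ℝ) 1, x t - (∑ l ∈ Finset.range i, W l).eval (t : ℝ) = R i t)
    (hb : ∀ i t, |t| ≤ 1 → |R i t| ≤ c i) (hg : ∀ i, Good (R i) (m i) (c i)) :
    ∃ P : ℕ → Polynomial ℝ,
        (∀ k : ℕ, (P k).degree < (k : WithBot ℕ) ∧
          ∀ q : Polynomial ℝ, q.degree < (k : WithBot ℕ) →
            ‖x - (P k).toContinuousMapOn (Set.Icc (-1) 1)‖ ≤
              ‖x - q.toContinuousMapOn (Set.Icc (-1) 1)‖) ∧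
        ∀ n : ℕ,
          (‖x - (P n).toContinuousMapOn (Set.Icc (-1) 1)‖ = 0 ∧ s (lev hm n) * c (lev hm n) = 0) ∨
          ∃ m' : ℕ, n ≤ m' ∧
            (∀ k : ℕ, n ≤ k → k < m' → (P (k + 1)).coeff k = 0) ∧
            (P (m' + 1)).coeff m' ≠ 0 ∧
            s (lev hm n) * c (lev hm n) = Real.sign ((P (m' + 1)).coeff m') *
              ‖x - (P n).toContinuousMapOn (Set.Icc (-1) 1)‖ := by
  have hc : ∀ i, 0 ≤ c i := fun i => (abs_nonneg _).trans (hb i 0 (by norm_num))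
  have up : ∀ i, ‖x - (∑ l ∈ Finset.range i, W l).toContinuousMapOn (Set.Icc (-1) 1)‖ ≤ c i := by
    intro i
    rw [ContinuousMap.norm_le _ (hc i)]
    intro t
    have := hb i t (abs_le.2 t.2)
    rw [← hR] at this
    exact this
  have lo : ∀ k : ℕ, ∀ q : ℝ[X], q.degree < (k : WithBot ℕ) →
      c (lev hm k) ≤ ‖x - q.toContinuousMapOn (Set.Icc (-1) 1)‖ := by
    intro k q hq
    have h1 : (q - ∑ l ∈ Finset.range (lev hm k), W l).degree < (m (lev hm k) : WithBot ℕ) := by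
      refine ((degree_sub_le _ _).trans_lt (max_lt hq (sum_deg hm hW))).trans_le ?_
      exact_mod_cast le_m_lev hm k
    have h2 : (q - ∑ l ∈ Finset.range (lev hm k), W l).natDegree < m (lev hm k) := by
      by_cases h0 : q - ∑ l ∈ Finset.range (lev hm k), W l = 0
      · rw [h0, natDegree_zero]; exact hm0.trans_le (hm.monotone (Nat.zero_le _))
      · exact (natDegree_lt_iff_degree_lt h0).2 h1
    obtain ⟨t, ht, ht2⟩ := hg _ _ h2
    have h3 := (x - q.toContinuousMapOn (Set.Icc (-1) 1)).norm_coe_le_norm ⟨t, abs_le.1 ht⟩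
    have h4 := hR (lev hm k) ⟨t, abs_le.1 ht⟩
    refine ht2.trans (le_trans (le_of_eq ?_) h3)
    rw [Real.norm_eq_abs, eval_sub]
    congr 1
    have h5 : (x - q.toContinuousMapOn (Set.Icc (-1) 1)) ⟨t, abs_le.1 ht⟩ =
        x ⟨t, abs_le.1 ht⟩ - q.eval t := rfl
    rw [h5]
    linarith
  refine ⟨fun k => ∑ l ∈ Finset.range (lev hm k), W l, fun k => ⟨sum_deg hm hW, fun q hq =>
    (up _).trans (lo k q hq)⟩, fun n => Or.inr ⟨m (lev hm n), le_m_lev hm n, ?_, ?_⟩⟩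
  · intro k h1 h2
    have e : lev hm (k + 1) = lev hm n :=
      le_antisymm ((lev_le_iff hm _ _).2 h2) (lev_mono hm (by omega))
    simp only [e]
    refine coeff_eq_zero_of_degree_lt ((sum_deg hm hW).trans_le ?_)
    exact_mod_cast h1
  · have e : (∑ l ∈ Finset.range (lev hm (m (lev hm n) + 1)), W l).coeff (m (lev hm n)) =
        (W (lev hm n)).coeff (m (lev hm n)) := by
      rw [lev_succ, Finset.sum_range_succ, coeff_add,
        coeff_eq_zero_of_degree_lt ((sum_deg hm hW).trans_le (by exact_mod_cast le_m_lev hm n)),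
        zero_add]
    simp only [e]
    refine ⟨(hs _).1, ?_⟩
    rw [(hs _).2, le_antisymm (up _) (lo n _ (sum_deg hm hW))]

end

end Pool.Agent.H5067
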