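import Mathlib
import Pool.Agent.H.MP_5067f1_an.B

set_option autoImplicit false

namespace Pool.Agent.H5067

open Polynomial

noncomputable section

def T3 : ℝ[X] := C 4 * X ^ 3 - C 3 * X

lemma T3_deg : T3.natDegree = 3 := by unfold T3; compute_degree!

lemma T3_lc : T3.leadingCoeff = 4 := by
  rw [← coeff_natDegree, T3_deg]; unfold T3; simp [coeff_X]

lemma T3_eval (t : ℝ) : T3.eval t = T t := by unfold T3 T; simp

def tau : ℕ → ℝ[X]
  | 0 => X
  | j + 1 => (tau j).comp T3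

lemma tau_eval (j : ℕ) : ∀ t : ℝ, (tau j).eval t = T^[j] t := by
  induction j with
  | zero => intro t; simp [tau]
  | succ j ih => intro t; rw [tau, eval_comp, T3_eval, ih, Function.iterate_succ_apply]

lemma tau_deg (j : ℕ) : (tau j).natDegree = 3 ^ j := by
  induction j with
  | zero => simp [tau]
  | succ j ih => rw [tau, natDegree_comp, ih, T3_deg, pow_succ]

lemma tau_lc (j : ℕ) : 0 < (tau j).leadingCoeff := by
  induction j with
  | zero => simp [tau]
  | succ j ih =>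
    rw [tau, leadingCoeff_comp (by rw [T3_deg]; norm_num), T3_lc]; positivity

lemma comp_deg (a : ℝ) {U : ℝ[X]} {k : ℕ} (h : U.natDegree = k) (j : ℕ) :
    (C a * U.comp (tau j)).natDegree ≤ k * 3 ^ j := by
  refine (natDegree_C_mul_le _ _).trans ?_
  rw [natDegree_comp, h, tau_deg]

lemma comp_coeff (a : ℝ) {U : ℝ[X]} {k : ℕ} (h : U.natDegree = k) (j : ℕ) :
    (C a * U.comp (tau j)).coeff (k * 3 ^ j) = a * (U.coeff k * (tau j).leadingCoeff ^ k) := by
  have e : (U.comp (tau j)).natDegree = k * 3 ^ j := by rw [natDegree_comp, h, tau_deg]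
  rw [coeff_C_mul, ← e, coeff_natDegree, leadingCoeff_comp (by rw [tau_deg]; positivity), h,
    ← coeff_natDegree, h]

def UA (d : ℝ) : ℝ[X] :=
  C (-24 / 5) * X ^ 4 + C (2 * d) * X ^ 3 + C (18 / 5) * X ^ 2 + C (-3 / 2 * d) * X
    + C (-14 / 5 - cY)

def UB (d : ℝ) : ℝ[X] := C (16 / 5) * X ^ 2 + C (d / 2) * X + C (17 / 10 + cY)

lemma UA_deg (d : ℝ) : (UA d).natDegree = 4 := by unfold UA; compute_degree!
lemma UB_deg (d : ℝ) : (UB d).natDegree = 2 := by unfold UB; compute_degree!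
lemma UA_c (d : ℝ) : (UA d).coeff 4 = -24 / 5 := by
  unfold UA
  simp only [coeff_add, coeff_C_mul, coeff_X_pow, coeff_X, coeff_C]
  norm_num
lemma UB_c (d : ℝ) : (UB d).coeff 2 = 16 / 5 := by
  unfold UB
  simp only [coeff_add, coeff_C_mul, coeff_X_pow, coeff_X, coeff_C]
  norm_num

lemma UA_eval {d t : ℝ} (hd : |d| ≤ 1) (ht : |t| ≤ 1) :
    Y d t - cY - (UA d).eval t = 2 / 3 * (K (-r * d) (T t) + 33 / 10) := by
  rw [Y_rec hd ht]
  unfold UA S T
  simp only [eval_add, eval_mul, eval_C, eval_X, eval_pow]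
  ring

lemma UB_eval (d t : ℝ) : K d t + 33 / 10 - (UB d).eval t = Y d t - cY := by
  unfold UB Y S
  simp only [eval_add, eval_mul, eval_C, eval_X, eval_pow]
  ring

def mm (i : ℕ) : ℕ := if i % 2 = 0 then 4 * 3 ^ (i / 2) else 2 * 3 ^ (i / 2 + 1)
def cc (i : ℕ) : ℝ :=
  if i % 2 = 0 then (2 / 3) ^ (i / 2) * eA else (2 / 3) ^ (i / 2 + 1) * (33 / 10)
def ss (i : ℕ) : ℝ := if i % 2 = 0 then -1 else 1
def WW (d : ℝ) (i : ℕ) : ℝ[X] :=
  if i % 2 = 0 then C ((2 / 3) ^ (i / 2)) * (UA ((-r) ^ (i / 2) * d)).comp (tau (i / 2))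
  else C ((2 / 3) ^ (i / 2 + 1)) * (UB ((-r) ^ (i / 2 + 1) * d)).comp (tau (i / 2 + 1))
def RR (d : ℝ) (i : ℕ) (t : ℝ) : ℝ :=
  if i % 2 = 0 then (2 / 3) ^ (i / 2) * (Y ((-r) ^ (i / 2) * d) (T^[i / 2] t) - cY)
  else (2 / 3) ^ (i / 2 + 1) * (K ((-r) ^ (i / 2 + 1) * d) (T^[i / 2 + 1] t) + 33 / 10)

lemma par (i : ℕ) : (i % 2 = 0 ∧ ¬ (i + 1) % 2 = 0 ∧ (i + 1) / 2 = i / 2) ∨
    (¬ i % 2 = 0 ∧ (i + 1) % 2 = 0 ∧ (i + 1) / 2 = i / 2 + 1) := by omega

lemma mm_mono : StrictMono mm := by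
  refine strictMono_nat_of_lt_succ fun i => ?_
  have hp : 0 < 3 ^ (i / 2) := by positivity
  unfold mm
  rcases par i with ⟨h1, h2, h3⟩ | ⟨h1, h2, h3⟩
  · rw [if_pos h1, if_neg h2, h3, pow_succ]; omega
  · rw [if_neg h1, if_pos h2, h3, pow_succ]; omega

lemma eA_lo : 5 / 2 ≤ eA := by unfold eA; linarith [Ys_lo]
lemma eA_hi : eA ≤ 3 := by unfold eA; linarith [Ys_hi]

lemma cc_anti : StrictAnti cc := by
  refine strictAnti_nat_of_succ_lt fun i => ?_
  have hp : (0 : ℝ) < (2 / 3) ^ (i / 2) := by positivity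
  have h4 := eA_lo
  have h5 := eA_hi
  unfold cc
  rcases par i with ⟨h1, h2, h3⟩ | ⟨h1, h2, h3⟩
  · rw [if_pos h1, if_neg h2, h3, pow_succ]; nlinarith
  · rw [if_neg h1, if_pos h2, h3, pow_succ]; nlinarith

lemma cc_pos (i : ℕ) : 0 < cc i := by
  have h4 : 0 < eA := by linarith [eA_lo]
  unfold cc
  split_ifs <;> positivity

lemma cc_zero : Filter.Tendsto cc Filter.atTop (nhds 0) := by
  have h1 : Filter.Tendsto (fun i : ℕ => 4 * (2 / 3 : ℝ) ^ (i / 2)) Filter.atTop (nhds (4 * 0)) := by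
    refine Filter.Tendsto.const_mul 4 ?_
    refine (tendsto_pow_atTop_nhds_zero_of_lt_one (by norm_num) (by norm_num)).comp ?_
    exact Filter.tendsto_atTop_atTop.2 fun b => ⟨2 * b, fun a ha => by omega⟩
  rw [mul_zero] at h1
  refine squeeze_zero (fun i => (cc_pos i).le) (fun i => ?_) h1
  have hp : (0 : ℝ) < (2 / 3) ^ (i / 2) := by positivity
  have h5 := eA_hi
  unfold cc
  split_ifs
  · nlinarith
  · rw [pow_succ]; nlinarith

/-- the common sequence of signed errors -/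
def err (n : ℕ) : ℝ := ss (lev mm_mono n) * cc (lev mm_mono n)

lemma abs_err (n : ℕ) : |err n| = cc (lev mm_mono n) := by
  unfold err ss
  rw [abs_mul, abs_of_pos (cc_pos _)]
  split_ifs <;> simp

lemma err_anti : Antitone fun n => |err n| := by
  intro a b h
  simp only [abs_err]
  exact cc_anti.antitone (lev_mono mm_mono h)

lemma err_zero : Filter.Tendsto err Filter.atTop (nhds 0) := by
  rw [tendsto_zero_iff_abs_tendsto_zero]
  have : (abs ∘ err) = cc ∘ lev mm_mono := by ext n; exact abs_err n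
  rw [this]
  exact cc_zero.comp (lev_top mm_mono)

lemma err_eq (n : ℕ) (h : |err n| = |err (n + 1)|) : err n = err (n + 1) := by
  rw [abs_err, abs_err] at h
  unfold err
  rw [cc_anti.injective h]

/-- the one-parameter family of functions with the same signed errors -/
def xx {d : ℝ} (hd : |d| ≤ 1 / 1000) : C(Set.Icc (-1 : ℝ) 1, ℝ) :=
  ⟨fun t => Y d t - cY, by
    have := K_cont (hd.trans (by norm_num : (1 / 1000 : ℝ) ≤ 1))
    unfold Y S
    fun_prop⟩

lemma xx_ne (h0 : |(0 : ℝ)| ≤ 1 / 1000) (h1 : |(1 / 1000 : ℝ)| ≤ 1 / 1000) : xx h0 ≠ xx h1 := by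
  intro h
  have h2 : Y 0 w - cY = Y (1 / 1000) w - cY :=
    congrArg (fun f : C(Set.Icc (-1 : ℝ) 1, ℝ) => f ⟨w, abs_le.1 w_mem⟩) h
  unfold Y at h2
  rw [K_zero S_w, K_zero S_w] at h2
  linarith [w_pos]

lemma RR_step {d t : ℝ} (hd : |d| ≤ 1) (ht : |t| ≤ 1) (i : ℕ) :
    RR d i t - (WW d i).eval t = RR d (i + 1) t := by
  unfold RR WW
  rcases par i with ⟨h1, h2, h3⟩ | ⟨h1, h2, h3⟩
  · simp only [if_pos h1, if_neg h2, h3]
    rw [eval_mul, eval_C, eval_comp, tau_eval, ← mul_sub, UA_eval (d_it hd _) (it_mem ht _),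
      Function.iterate_succ_apply', pow_succ, pow_succ' (-r), mul_assoc (-r)]
    ring
  · simp only [if_neg h1, if_pos h2, h3]
    rw [eval_mul, eval_C, eval_comp, tau_eval, ← mul_sub, UB_eval]

theorem main {d : ℝ} (hd : |d| ≤ 1 / 1000) :
    ∃ P : ℕ → Polynomial ℝ,
        (∀ k : ℕ, (P k).degree < (k : WithBot ℕ) ∧
          ∀ q : Polynomial ℝ, q.degree < (k : WithBot ℕ) →
            ‖xx hd - (P k).toContinuousMapOn (Set.Icc (-1) 1)‖ ≤
              ‖xx hd - q.toContinuousMapOn (Set.Icc (-1) 1)‖) ∧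
        ∀ n : ℕ,
          (‖xx hd - (P n).toContinuousMapOn (Set.Icc (-1) 1)‖ = 0 ∧ err n = 0) ∨
          ∃ m' : ℕ, n ≤ m' ∧
            (∀ k : ℕ, n ≤ k → k < m' → (P (k + 1)).coeff k = 0) ∧
            (P (m' + 1)).coeff m' ≠ 0 ∧
            err n = Real.sign ((P (m' + 1)).coeff m') *
              ‖xx hd - (P n).toContinuousMapOn (Set.Icc (-1) 1)‖ := by
  have hd1 : |d| ≤ 1 := hd.trans (by norm_num)
  refine levels mm_mono (by simp [mm]) (WW d) (fun i => ?_) ss cc (fun i => ?_) (xx hd) (RR d)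
    (fun i t => ?_) (fun i t ht => ?_) (fun i => ?_)
  · unfold WW mm
    split_ifs
    · exact comp_deg _ (UA_deg _) _
    · exact comp_deg _ (UB_deg _) _
  · unfold WW mm ss
    split_ifs
    · rw [comp_coeff _ (UA_deg _), UA_c]
      have h1 := tau_lc (i / 2)
      have : (2 / 3 : ℝ) ^ (i / 2) * (-24 / 5 * (tau (i / 2)).leadingCoeff ^ 4) < 0 :=
        mul_neg_of_pos_of_neg (by positivity) (mul_neg_of_neg_of_pos (by norm_num) (by positivity))
      exact ⟨this.ne, Real.sign_of_neg this⟩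
    · rw [comp_coeff _ (UB_deg _), UB_c]
      have h1 := tau_lc (i / 2 + 1)
      have : 0 < (2 / 3 : ℝ) ^ (i / 2 + 1) * (16 / 5 * (tau (i / 2 + 1)).leadingCoeff ^ 2) := by
        positivity
      exact ⟨this.ne', Real.sign_of_pos this⟩
  · induction i with
    | zero =>
      have : xx hd t = Y d t - cY := rfl
      simp [RR, this]
    | succ i ih =>
      rw [Finset.sum_range_succ, eval_add, ← RR_step hd1 (abs_le.2 t.2), ← ih]
      ring
  · unfold RR cc
    split_ifs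
    · rw [abs_mul, abs_of_pos (by positivity)]
      exact mul_le_mul_of_nonneg_left (absA (d_it hd _) (it_mem ht _)) (by positivity)
    · rw [abs_mul, abs_of_pos (by positivity)]
      exact mul_le_mul_of_nonneg_left (absB (d_it hd _) (it_mem ht _)) (by positivity)
  · unfold RR mm cc
    split_ifs
    · exact ((goodA (d_it hd1 _)).iter _).scale (by positivity)
    · exact ((goodB _).iter _).scale (by positivity)

end

end Pool.Agent.H5067
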